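import Pool.Agent.Helper88.GU.St

/-!
# Project GU2, module VB: constants from the maximal ideal
-/

set_option autoImplicit false

namespace Pool.Agent.Helper67.GU2

open Polynomial
open Pool.Agent.Helper88.GU

universe u

/-- For one prime only finitely many powers of `π` are bad. -/
theorem bad_finite {R B : Type u} [CommRing R] [IsLocalRing R] [CommRing B] [Algebra R B]
    (π : R) (hπ : π ∈ IsLocalRing.maximalIdeal R) (Q : Ideal B) (hQ : Q.IsPrime) (g : B[X])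
    (hπQ : π ∉ Q.comap (algebraMap R B)) (hg : ∃ j, g.coeff j ∉ Q) :
    {i : ℕ | g.eval (algebraMap R B (π ^ i)) ∈ Q}.Finite := by
  have _ := hQ
  set φ : B →+* B ⧸ Q := Ideal.Quotient.mk Q with hφ
  set a : B ⧸ Q := φ (algebraMap R B π) with ha
  have ha0 : a ≠ 0 := by
    intro h
    apply hπQ
    rw [Ideal.mem_comap]
    exact Ideal.Quotient.eq_zero_iff_mem.1 h
  have hg0 : g.map φ ≠ 0 := by
    obtain ⟨j, hj⟩ := hg
    intro h
    apply hj
    have h1 : (g.map φ).coeff j = 0 := by rw [h, coeff_zero]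
    rw [coeff_map] at h1
    exact Ideal.Quotient.eq_zero_iff_mem.1 h1
  have hlt : ∀ i k : ℕ, i < k → a ^ i ≠ a ^ k := by
    intro i k hik h
    obtain ⟨l, rfl⟩ : ∃ l, k = i + (l + 1) := ⟨k - i - 1, by omega⟩
    have h1 : a ^ i * (1 - a ^ (l + 1)) = 0 := by
      rw [mul_sub, mul_one, ← pow_add, h, sub_self]
    rcases mul_eq_zero.1 h1 with h2 | h2
    · exact pow_ne_zero _ ha0 h2
    · have h3 : π ^ (l + 1) ∈ nonunits R :=
        (IsLocalRing.mem_maximalIdeal _).1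
          (Ideal.pow_mem_of_mem _ hπ (l + 1) (Nat.succ_pos l))
      have h4 : IsUnit (1 - π ^ (l + 1)) :=
        IsLocalRing.isUnit_one_sub_self_of_mem_nonunits _ h3
      have h5 := h4.map (φ.comp (algebraMap R B))
      have h6 : (φ.comp (algebraMap R B)) (1 - π ^ (l + 1)) = 1 - a ^ (l + 1) := by
        rw [map_sub, map_one, map_pow]
        rfl
      rw [h6, h2] at h5
      exact not_isUnit_zero h5
  have hinj : Function.Injective (fun i : ℕ => a ^ i) := by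
    intro i k h
    rcases lt_trichotomy i k with h1 | h1 | h1
    · exact absurd h (hlt i k h1)
    · exact h1
    · exact absurd h.symm (hlt k i h1)
  refine ((Polynomial.finite_setOf_isRoot hg0).preimage hinj.injOn).subset ?_
  intro i hi
  rw [Set.mem_preimage, Set.mem_setOf_eq, IsRoot.def]
  have h1 : a ^ i = φ (algebraMap R B (π ^ i)) := by rw [map_pow, map_pow]
  rw [h1, eval_map, eval₂_at_apply]
  exact Ideal.Quotient.eq_zero_iff_mem.2 hi

theorem hVB : Pool.Agent.Helper88.GU.StVB.{u} := by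
  classical
  intro R _ _ B₁ B₂ _ _ _ _ S₁ S₂ hS₁ hS₂ h1 h2
  set T : Set (Ideal R) := (fun q => q.1.comap (algebraMap R B₁)) '' S₁ ∪
    (fun q => q.1.comap (algebraMap R B₂)) '' S₂ with hT
  have hTf : T.Finite := (hS₁.image _).union (hS₂.image _)
  have hTp : ∀ P ∈ T, P.IsPrime ∧ ¬ IsLocalRing.maximalIdeal R ≤ P := by
    rintro P (⟨q, hq, rfl⟩ | ⟨q, hq, rfl⟩)
    · have _ := (h1 q hq).1
      exact ⟨Ideal.comap_isPrime _ _, (h1 q hq).2.1⟩
    · have _ := (h2 q hq).1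
      exact ⟨Ideal.comap_isPrime _ _, (h2 q hq).2.1⟩
  obtain ⟨π, hπ, hπT⟩ : ∃ π ∈ IsLocalRing.maximalIdeal R, ∀ P ∈ T, π ∉ P := by
    by_contra hcon
    push Not at hcon
    have hsub : ((IsLocalRing.maximalIdeal R : Ideal R) : Set R) ⊆
        ⋃ i ∈ (↑hTf.toFinset : Set (Ideal R)), ((fun P : Ideal R => P) i : Set R) := by
      intro π hπ
      obtain ⟨P, hP, hπP⟩ := hcon π hπ
      simp only [Set.mem_iUnion]
      exact ⟨P, by simpa using hP, hπP⟩
    obtain ⟨P, hP, hle⟩ := (Ideal.subset_union_prime (f := fun P : Ideal R => P) ⊤ ⊤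
      (fun P hP _ _ => (hTp P (hTf.mem_toFinset.1 hP)).1)).1 hsub
    exact (hTp P (hTf.mem_toFinset.1 hP)).2 hle
  have hb1 : ∀ q ∈ S₁, {i : ℕ | q.2.eval (algebraMap R B₁ (π ^ i)) ∈ q.1}.Finite := fun q hq =>
    bad_finite π hπ q.1 (h1 q hq).1 q.2 (hπT _ (Or.inl ⟨q, hq, rfl⟩)) (h1 q hq).2.2
  have hb2 : ∀ q ∈ S₂, {i : ℕ | q.2.eval (algebraMap R B₂ (π ^ i)) ∈ q.1}.Finite := fun q hq =>
    bad_finite π hπ q.1 (h2 q hq).1 q.2 (hπT _ (Or.inr ⟨q, hq, rfl⟩)) (h2 q hq).2.2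
  have hbad : (({0} : Set ℕ) ∪ (⋃ q ∈ S₁, {i : ℕ | q.2.eval (algebraMap R B₁ (π ^ i)) ∈ q.1}) ∪
      (⋃ q ∈ S₂, {i : ℕ | q.2.eval (algebraMap R B₂ (π ^ i)) ∈ q.1})).Finite :=
    ((Set.finite_singleton 0).union (hS₁.biUnion hb1)).union (hS₂.biUnion hb2)
  obtain ⟨i, hi⟩ := hbad.infinite_compl.nonempty
  rw [Set.mem_compl_iff, Set.mem_union, Set.mem_union, not_or, not_or] at hi
  obtain ⟨⟨hi0, hi1⟩, hi2⟩ := hi
  refine ⟨π ^ i, ?_, ?_, ?_⟩
  · exact Ideal.pow_mem_of_mem _ hπ i (Nat.pos_of_ne_zero hi0)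
  · intro q hq hc
    exact hi1 (Set.mem_biUnion hq hc)
  · intro q hq hc
    exact hi2 (Set.mem_biUnion hq hc)

end Pool.Agent.Helper67.GU2
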