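import Pool.Agent.Helper88.GU.St

/-!
# Project GU2, module XD: the vertex of a graded algebra
-/

set_option autoImplicit false

namespace Pool.Agent.Helper67.GU2

open Polynomial
open Pool.Agent.Helper88.GU

universe u

theorem hXD : Pool.Agent.Helper88.GU.StXD.{u} := by
  intro R A _ _ _ _ _ G m x e hS
  set p : A →+* A := (constantCoeff : A[X] →+* A).comp G.Γ with hp
  have hpc : ∀ f, (G.Γ f).coeff 0 = p f := fun f => rfl
  have hall : ∀ f : A, (∃ ρ : R, p f = algebraMap R A ρ) ∧ f - p f ∈ Ideal.span (Set.range x) := by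
    intro f
    have hf : f ∈ Algebra.adjoin R (Set.range x) := by rw [hS.gen]; trivial
    induction hf using Algebra.adjoin_induction with
    | mem y hy =>
      obtain ⟨l, rfl⟩ := hy
      have h0 : p (x l) = 0 := by
        rw [← hpc, hS.deg, coeff_C_mul, coeff_X_pow, if_neg, mul_zero]
        have := hS.pos l
        omega
      refine ⟨⟨0, by rw [h0, map_zero]⟩, ?_⟩
      rw [h0, sub_zero]
      exact Ideal.subset_span ⟨l, rfl⟩
    | algebraMap r =>
      have h0 : p (algebraMap R A r) = algebraMap R A r := by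
        rw [← hpc, hS.r0, coeff_C_zero]
      refine ⟨⟨r, h0⟩, ?_⟩
      rw [h0, sub_self]
      exact Ideal.zero_mem _
    | add f g _ _ hf hg =>
      obtain ⟨⟨ρ, hρ⟩, h1⟩ := hf
      obtain ⟨⟨ρ', hρ'⟩, h2⟩ := hg
      refine ⟨⟨ρ + ρ', by rw [map_add, map_add, hρ, hρ']⟩, ?_⟩
      have h3 : f + g - p (f + g) = (f - p f) + (g - p g) := by rw [map_add]; ring
      rw [h3]
      exact Ideal.add_mem _ h1 h2
    | mul f g _ _ hf hg =>
      obtain ⟨⟨ρ, hρ⟩, h1⟩ := hf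
      obtain ⟨⟨ρ', hρ'⟩, h2⟩ := hg
      refine ⟨⟨ρ * ρ', by rw [map_mul, map_mul, hρ, hρ']⟩, ?_⟩
      have h3 : f * g - p (f * g) = f * (g - p g) + p g * (f - p f) := by rw [map_mul]; ring
      rw [h3]
      exact Ideal.add_mem _ (Ideal.mul_mem_left _ _ h2) (Ideal.mul_mem_left _ _ h1)
  refine ⟨fun f => (hall f).1, fun f => (hall f).2, ?_⟩
  set Q : Ideal A :=
    { carrier := {f | ∃ ρ ∈ IsLocalRing.maximalIdeal R, p f = algebraMap R A ρ}
      add_mem' := by
        rintro f g ⟨ρ, h1, h2⟩ ⟨ρ', h3, h4⟩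
        exact ⟨ρ + ρ', Ideal.add_mem _ h1 h3, by rw [map_add, map_add, h2, h4]⟩
      zero_mem' := ⟨0, Ideal.zero_mem _, by rw [map_zero, map_zero]⟩
      smul_mem' := by
        rintro a f ⟨ρ, h1, h2⟩
        obtain ⟨ρ', h3⟩ := (hall a).1
        exact ⟨ρ' * ρ, Ideal.mul_mem_left _ _ h1, by rw [smul_eq_mul, map_mul, map_mul, h2, h3]⟩ }
    with hQ
  have hmem : ∀ f, f ∈ Q ↔ ∃ ρ ∈ IsLocalRing.maximalIdeal R, p f = algebraMap R A ρ :=
    fun f => Iff.rfl
  have hiff : ∀ f : A, f ∉ Q ↔ ∃ ρ : R, IsUnit ρ ∧ p f = algebraMap R A ρ := by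
    intro f
    constructor
    · intro h
      obtain ⟨ρ, hρ⟩ := (hall f).1
      refine ⟨ρ, ?_, hρ⟩
      by_contra hu
      exact h ((hmem f).2 ⟨ρ, (IsLocalRing.mem_maximalIdeal ρ).2 hu, hρ⟩)
    · rintro ⟨ρ, hu, hρ⟩ h
      obtain ⟨ρ', h1, h2⟩ := (hmem f).1 h
      have h3 : IsUnit (ρ - ρ') := by
        by_contra h4
        have h5 : ρ - ρ' ∈ IsLocalRing.maximalIdeal R := (IsLocalRing.mem_maximalIdeal _).2 h4
        have h6 : ρ ∈ IsLocalRing.maximalIdeal R := by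
          have := Ideal.add_mem _ h5 h1
          rwa [sub_add_cancel] at this
        exact ((IsLocalRing.mem_maximalIdeal _).1 h6) hu
      have h4 : algebraMap R A (ρ - ρ') = 0 := by rw [map_sub, ← hρ, ← h2, sub_self]
      have h5 := h3.map (algebraMap R A)
      rw [h4] at h5
      exact not_isUnit_zero h5
  refine ⟨Q, ⟨?_, ?_⟩, hiff⟩
  · intro h
    have h1 : (1 : A) ∉ Q := (hiff 1).2 ⟨1, isUnit_one, by rw [map_one, map_one]⟩
    exact h1 (by rw [h]; trivial)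
  · intro f g hfg
    by_contra h
    push Not at h
    obtain ⟨ρ, h1, h2⟩ := (hiff f).1 h.1
    obtain ⟨ρ', h3, h4⟩ := (hiff g).1 h.2
    exact (hiff (f * g)).2 ⟨ρ * ρ', h1.mul h3, by rw [map_mul, map_mul, h2, h4]⟩ hfg

end Pool.Agent.Helper67.GU2
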